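import Pool.Agent.Helper26.AL.GoalsA

/-!
# Project AL (MP_af6c86_pr), packet INV: inversion
-/

set_option autoImplicit false

namespace Pool.Agent.Helper8.AL

open Finset Filter Topology Pool.Agent.Helper26.AF Pool.Agent.Helper26.AL

open Classical in
/-- the weight of a pair of graphs -/
noncomputable def ww (k r : ℕ) (j i : ℕ) (H₁ : SimpleGraph (Fin j)) (H₂ : SimpleGraph (Fin i)) : ℝ :=
  if CXG H₁ ∧ CXG H₂ ∧ ne H₁ + ne H₂ = k + r then (-1 : ℝ) ^ cc H₂ else 0

open Classical in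
theorem co_none (j i : ℕ) : (co none j i : ℝ) =
    ∑ H : SimpleGraph (Fin j), if CXG H ∧ ne H = j + i then (1 : ℝ) else 0 := by
  unfold co
  rw [Nat.card_eq_fintype_card, Fintype.card_subtype, Finset.sum_boole]
  congr 2
  ext H
  simp only [Finset.mem_filter, Finset.mem_univ, true_and]
  constructor
  · rintro ⟨h1, h2, _⟩
    exact ⟨h1, h2⟩
  · rintro ⟨h1, h2⟩
    exact ⟨h1, h2, fun g hg => by simp at hg⟩

open Classical in
theorem step1 (hCXN : StmtCXN) (k r j : ℕ) (hj : j ≤ k) :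
    ∑ i ∈ range (r + 1), (co none j i : ℝ) * ds (k - j) (r - i) =
      ∑ H₁ : SimpleGraph (Fin j), ∑ H₂ : SimpleGraph (Fin (k - j)), ww k r j (k - j) H₁ H₂ := by
  have h1 : ∀ i ∈ range (r + 1), (co none j i : ℝ) * ds (k - j) (r - i) =
      ∑ H₁ : SimpleGraph (Fin j), ∑ H₂ : SimpleGraph (Fin (k - j)),
        (if CXG H₁ ∧ ne H₁ = j + i then (1 : ℝ) else 0) *
          (if CXG H₂ ∧ ne H₂ = (k - j) + (r - i) then (-1 : ℝ) ^ cc H₂ else 0) := by
    intro i _
    rw [co_none]
    unfold ds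
    rw [Finset.sum_mul_sum]
  rw [Finset.sum_congr rfl h1, Finset.sum_comm]
  apply Finset.sum_congr rfl
  intro H₁ _
  rw [Finset.sum_comm]
  apply Finset.sum_congr rfl
  intro H₂ _
  unfold ww
  by_cases hc1 : CXG H₁
  · by_cases hc2 : CXG H₂
    · have h2 := (hCXN (Fin j) H₁ hc1).1
      have h3 := (hCXN (Fin (k - j)) H₂ hc2).1
      rw [Fintype.card_fin] at h2 h3
      by_cases h4 : ne H₁ + ne H₂ = k + r
      · rw [if_pos ⟨hc1, hc2, h4⟩, Finset.sum_eq_single (ne H₁ - j)]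
        · rw [if_pos ⟨hc1, by omega⟩, if_pos ⟨hc2, by omega⟩, one_mul]
        · intro i _ hi
          rw [if_neg (fun h => hi (by omega)), zero_mul]
        · intro h
          exact absurd (Finset.mem_range.mpr (by omega)) h
      · rw [if_neg (fun h => h4 h.2.2)]
        apply Finset.sum_eq_zero
        intro i hi
        have hi' := Finset.mem_range.mp hi
        by_cases h5 : ne H₁ = j + i
        · rw [if_neg (fun h : CXG H₂ ∧ ne H₂ = (k - j) + (r - i) => h4 (by omega)), mul_zero]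
        · rw [if_neg (fun h : CXG H₁ ∧ ne H₁ = j + i => h5 h.2), zero_mul]
    · rw [if_neg (fun h => hc2 h.2.1)]
      apply Finset.sum_eq_zero
      intro i _
      rw [if_neg (fun h : CXG H₂ ∧ ne H₂ = (k - j) + (r - i) => hc2 h.1), mul_zero]
  · rw [if_neg (fun h => hc1 h.1)]
    apply Finset.sum_eq_zero
    intro i _
    rw [if_neg (fun h : CXG H₁ ∧ ne H₁ = j + i => hc1 h.1), zero_mul]

/-- there are at most `(k+1 choose 2)` edges -/
theorem eIn_le {k n : ℕ} (hn : n ≤ k) (G : SimpleGraph (Fin n)) (Q : Finset (Fin n)) :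
    eIn G Q ≤ (k + 1).choose 2 := by
  unfold eIn
  have h1 : Nat.card {e : Sym2 (Fin n) // e ∈ G.edgeSet ∧ ∀ v ∈ e, v ∈ Q} ≤
      Nat.card (Sym2 (Fin n)) :=
    Nat.card_le_card_of_injective Subtype.val Subtype.val_injective
  have h2 : Nat.card (Sym2 (Fin n)) = (n + 1).choose 2 := by
    rw [Nat.card_eq_fintype_card, Sym2.card, Fintype.card_fin]
  rw [h2] at h1
  exact h1.trans (Nat.choose_le_choose 2 (by omega))

theorem cxg_iff {k n : ℕ} (hn : n ≤ k) (G : SimpleGraph (Fin n)) :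
    CXG G ↔ CXR ((k + 1).choose 2) G := by
  constructor
  · intro h Q hQ
    have h1 := eIn_le hn G Q
    exact ⟨h Q hQ, by omega⟩
  · intro h Q hQ
    exact (h Q hQ).1

theorem clo_compl {n : ℕ} {G : SimpleGraph (Fin n)} {U : Finset (Fin n)} (h : Clo G U) :
    Clo G Uᶜ := by
  intro x y hxy hx
  rw [Finset.mem_compl] at hx ⊢
  intro hy
  exact hx (h y x hxy.symm hy)

open Classical in
theorem char (hCLO : StmtCLO) {n R : ℕ} (G : SimpleGraph (Fin n)) (U : Finset (Fin n)) :
    (Clo G U ∧ CXR R (gi G U)) ↔ ∃ A ⊆ cxs R G, A.sup id = U := by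
  obtain ⟨_, _, h3⟩ := hCLO n R G
  have h4 := h3 (fun V => if V = U then 1 else 0)
  have h5 : (∑ V : Finset (Fin n), if Clo G V ∧ CXR R (gi G V) then
      (if V = U then (1 : ℝ) else 0) else 0) = if Clo G U ∧ CXR R (gi G U) then 1 else 0 := by
    rw [Finset.sum_eq_single U]
    · rw [if_pos rfl]
    · intro V _ hV
      rw [if_neg hV, ite_self]
    · intro h
      exact absurd (Finset.mem_univ _) h
  rw [h5] at h4
  constructor
  · intro h
    rw [if_pos h] at h4
    by_contra hcon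
    push Not at hcon
    rw [Finset.sum_eq_zero] at h4
    · exact one_ne_zero h4
    · intro A hA
      rw [if_neg (hcon A (Finset.mem_powerset.mp hA))]
  · rintro ⟨A, hA, hU⟩
    by_contra hcon
    rw [if_neg hcon] at h4
    have h6 : (1 : ℝ) ≤ ∑ A ∈ (cxs R G).powerset, if A.sup id = U then (1 : ℝ) else 0 := by
      have h7 := Finset.single_le_sum (f := fun A : Finset (Finset (Fin n)) =>
        if A.sup id = U then (1 : ℝ) else 0) (fun B _ => by
          show (0 : ℝ) ≤ if B.sup id = U then (1 : ℝ) else 0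
          split_ifs <;> norm_num) (Finset.mem_powerset.mpr hA)
      simp only [if_pos hU] at h7
      exact h7
    linarith

open Classical in
theorem key (hCLO : StmtCLO) (k r : ℕ) (hk : 0 < k) (G : SimpleGraph (Fin k)) :
    (∑ U : Finset (Fin k), if Clo G U then ww k r #U #Uᶜ (gi G U) (gi G Uᶜ) else 0) = 0 := by
  obtain ⟨R, hR⟩ : ∃ R, R = (k + 1).choose 2 := ⟨_, rfl⟩
  obtain ⟨h1, h2, h3⟩ := hCLO k R G
  have hcard : ∀ U : Finset (Fin k), #U ≤ k := fun U => by
    have := Finset.card_le_univ U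
    rwa [Fintype.card_fin] at this
  have e1 : (∑ U : Finset (Fin k), if Clo G U then ww k r #U #Uᶜ (gi G U) (gi G Uᶜ) else 0) =
      ∑ U : Finset (Fin k), if Clo G U ∧ CXR R (gi G U) then
        (if CXG (gi G Uᶜ) ∧ ne (gi G U) + ne (gi G Uᶜ) = k + r then (-1 : ℝ) ^ cc (gi G Uᶜ) else 0)
        else 0 := by
    apply Finset.sum_congr rfl
    intro U _
    have h4 := cxg_iff (hcard U) (gi G U)
    rw [← hR] at h4
    unfold ww
    by_cases h5 : Clo G U
    · by_cases h6 : CXR R (gi G U)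
      · by_cases h7 : CXG (gi G Uᶜ) ∧ ne (gi G U) + ne (gi G Uᶜ) = k + r
        · rw [if_pos h5, if_pos (⟨h4.mpr h6, h7.1, h7.2⟩ : CXG (gi G U) ∧ CXG (gi G Uᶜ) ∧
            ne (gi G U) + ne (gi G Uᶜ) = k + r), if_pos (⟨h5, h6⟩ : Clo G U ∧ CXR R (gi G U)),
            if_pos h7]
        · rw [if_pos h5, if_neg (fun h : CXG (gi G U) ∧ CXG (gi G Uᶜ) ∧
            ne (gi G U) + ne (gi G Uᶜ) = k + r => h7 h.2),
            if_pos (⟨h5, h6⟩ : Clo G U ∧ CXR R (gi G U)), if_neg h7]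
      · rw [if_pos h5, if_neg (fun h : CXG (gi G U) ∧ CXG (gi G Uᶜ) ∧
            ne (gi G U) + ne (gi G Uᶜ) = k + r => h6 (h4.mp h.1)),
          if_neg (fun h : Clo G U ∧ CXR R (gi G U) => h6 h.2)]
    · rw [if_neg h5, if_neg (fun h : Clo G U ∧ CXR R (gi G U) => h5 h.1)]
  rw [e1, h3 (fun U => if CXG (gi G Uᶜ) ∧ ne (gi G U) + ne (gi G Uᶜ) = k + r then
    (-1 : ℝ) ^ cc (gi G Uᶜ) else 0)]
  obtain ⟨C, hC⟩ : ∃ C, C = cxs R G := ⟨_, rfl⟩
  rw [← hC] at h1 h2 ⊢
  by_cases hsup : C.sup id = univ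
  · have hne : C ≠ ∅ := by
      intro h
      rw [h, Finset.sup_empty] at hsup
      have h4 : (⟨0, hk⟩ : Fin k) ∈ (⊥ : Finset (Fin k)) := by
        rw [hsup]
        exact Finset.mem_univ _
      exact absurd h4 (Finset.notMem_empty _)
    have hcomp : ∀ A ⊆ C, (A.sup id)ᶜ = (C \ A).sup id := by
      intro A hA
      have hd : Disjoint (A.sup id) ((C \ A).sup id) :=
        (h2 A hA (C \ A) Finset.sdiff_subset).mpr Finset.disjoint_sdiff
      have hu : A.sup id ⊔ (C \ A).sup id = univ := by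
        rw [← Finset.sup_union, Finset.union_sdiff_of_subset hA, hsup]
      exact IsCompl.compl_eq ⟨hd, codisjoint_iff.mpr hu⟩
    have e2 : ∀ A ∈ C.powerset, (if CXG (gi G (A.sup id)ᶜ) ∧ ne (gi G (A.sup id)) +
        ne (gi G (A.sup id)ᶜ) = k + r then (-1 : ℝ) ^ cc (gi G (A.sup id)ᶜ) else 0) =
        (if ∑ Q ∈ C, eIn G Q = k + r then (1 : ℝ) else 0) * (-1 : ℝ) ^ #(C \ A) := by
      intro A hA
      have hA' := Finset.mem_powerset.mp hA
      rw [hcomp A hA']
      obtain ⟨_, _, a3, _⟩ := h1 A hA'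
      obtain ⟨_, b2, b3, _⟩ := h1 (C \ A) Finset.sdiff_subset
      have hcx : CXG (gi G ((C \ A).sup id)) := by
        rw [cxg_iff (hcard _), ← hR]
        exact ((char hCLO G ((C \ A).sup id)).mpr
          ⟨C \ A, by rw [← hC]; exact Finset.sdiff_subset, rfl⟩).2
      rw [a3, b2, b3, add_comm (∑ Q ∈ A, eIn G Q), Finset.sum_sdiff hA']
      by_cases h4 : ∑ Q ∈ C, eIn G Q = k + r
      · rw [if_pos ⟨hcx, h4⟩, if_pos h4, one_mul]
      · rw [if_neg (fun h => h4 h.2), if_neg h4, zero_mul]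
    rw [Finset.sum_congr rfl e2, ← Finset.mul_sum]
    have e3 : ∑ A ∈ C.powerset, (-1 : ℝ) ^ #(C \ A) = ∑ B ∈ C.powerset, (-1 : ℝ) ^ #B := by
      refine Finset.sum_bij' (fun A _ => C \ A) (fun A _ => C \ A) ?_ ?_ ?_ ?_ ?_
      · intro A _
        exact Finset.mem_powerset.mpr Finset.sdiff_subset
      · intro A _
        exact Finset.mem_powerset.mpr Finset.sdiff_subset
      · intro A hA
        exact Finset.sdiff_sdiff_eq_self (Finset.mem_powerset.mp hA)
      · intro A hA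
        exact Finset.sdiff_sdiff_eq_self (Finset.mem_powerset.mp hA)
      · intro A _
        rfl
    have e4 : ∑ B ∈ C.powerset, (-1 : ℝ) ^ #B = 0 := by
      have h4 := Finset.sum_powerset_neg_one_pow_card (x := C)
      rw [if_neg hne] at h4
      have h5 := congrArg (fun z : ℤ => (z : ℝ)) h4
      push_cast at h5
      exact h5
    rw [e3, e4, mul_zero]
  · apply Finset.sum_eq_zero
    intro A hA
    have hA' := Finset.mem_powerset.mp hA
    rw [if_neg]
    rintro ⟨hcx, _⟩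
    apply hsup
    have h4 : CXR R (gi G (A.sup id)ᶜ) := by
      rw [hR]
      exact (cxg_iff (hcard _) _).mp hcx
    obtain ⟨B, hB, hBU⟩ := (char hCLO G (A.sup id)ᶜ).mp ⟨clo_compl (h1 A hA').1, h4⟩
    rw [← hC] at hB
    rw [eq_univ_iff_forall]
    intro x
    by_cases hx : x ∈ A.sup id
    · exact (Finset.sup_mono hA' : A.sup id ≤ C.sup id) hx
    · have hx2 : x ∈ B.sup id := by
        rw [hBU, Finset.mem_compl]
        exact hx
      exact (Finset.sup_mono hB : B.sup id ≤ C.sup id) hx2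

/-- everything is trivial for the empty graph -/
theorem zero_case (r : ℕ) (H₁ : SimpleGraph (Fin 0)) (H₂ : SimpleGraph (Fin (0 - 0))) :
    ww 0 r 0 (0 - 0) H₁ H₂ = if r = 0 then 1 else 0 := by
  have hc : ∀ H : SimpleGraph (Fin 0), CXG H := by
    rintro H Q ⟨c, _⟩
    obtain ⟨v, _⟩ := c.exists_rep
    exact v.elim0
  have hn : ∀ H : SimpleGraph (Fin 0), ne H = 0 := by
    intro H
    unfold ne
    rw [Nat.card_eq_zero]
    left
    constructor
    rintro ⟨e, _⟩
    induction e using Sym2.inductionOn with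
    | hf x y => exact x.elim0
  have hcc : ∀ H : SimpleGraph (Fin 0), cc H = 0 := by
    intro H
    unfold cc
    rw [Nat.card_eq_zero]
    left
    constructor
    intro c
    obtain ⟨v, _⟩ := c.exists_rep
    exact v.elim0
  unfold ww
  rw [hn H₁, hn H₂, hcc H₂, pow_zero]
  by_cases h : r = 0
  · rw [if_pos ⟨hc H₁, hc H₂, by omega⟩, if_pos h]
  · rw [if_neg (fun h2 => h (by omega)), if_neg h]

theorem goalINV (hBIJ : Pool.Agent.Helper26.AL.StmtBIJ) (hCLO : Pool.Agent.Helper26.AL.StmtCLO)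
    (hCXN : Pool.Agent.Helper26.AL.StmtCXN) : Pool.Agent.Helper26.AL.StmtINV := by
  classical
  intro k r
  have h1 : (∑ j ∈ range (k + 1), (k.choose j : ℝ) *
      ∑ i ∈ range (r + 1), (co none j i : ℝ) * ds (k - j) (r - i)) =
      ∑ j ∈ range (k + 1), (k.choose j : ℝ) * ∑ H₁ : SimpleGraph (Fin j),
        ∑ H₂ : SimpleGraph (Fin (k - j)), ww k r j (k - j) H₁ H₂ := by
    apply Finset.sum_congr rfl
    intro j hj
    rw [step1 hCXN k r j (by have := Finset.mem_range.mp hj; omega)]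
  rw [h1]
  rcases Nat.eq_zero_or_pos k with hk | hk
  · subst hk
    rw [Finset.sum_range_one, Nat.choose_self, Nat.cast_one, one_mul]
    have h2 : ∀ H₁ : SimpleGraph (Fin 0), ∑ H₂ : SimpleGraph (Fin (0 - 0)),
        ww 0 r 0 (0 - 0) H₁ H₂ = if r = 0 then 1 else 0 := by
      intro H₁
      rw [Finset.sum_congr rfl (fun H₂ _ => zero_case r H₁ H₂), Finset.sum_const, Finset.card_univ]
      have h3 : Fintype.card (SimpleGraph (Fin (0 - 0))) = 1 :=
        Fintype.card_eq_one_iff.mpr ⟨⊥, fun H => by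
          ext a
          exact a.elim0⟩
      rw [h3, one_smul]
    rw [Finset.sum_congr rfl (fun H₁ _ => h2 H₁), Finset.sum_const, Finset.card_univ]
    have h3 : Fintype.card (SimpleGraph (Fin 0)) = 1 :=
      Fintype.card_eq_one_iff.mpr ⟨⊥, fun H => by
        ext a
        exact a.elim0⟩
    rw [h3, one_smul]
    by_cases h : r = 0
    · rw [if_pos h, if_pos ⟨rfl, h⟩]
    · rw [if_neg h, if_neg (fun h2 => h h2.2)]
  · rw [← hBIJ k (ww k r), Finset.sum_eq_zero, if_neg (fun h => by omega)]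
    intro G _
    exact key hCLO k r hk G

end Pool.Agent.Helper8.AL
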